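import Pool.Agent.Lib.Npc.Defs

/-!
# The set of functions with pointwise convergence is closed

Let `MM j h x = ⨆ M, M^{-k} ∑_{v < M} h (U j v x)` (`h : X → ℝ≥0∞`); `hmax`: `∫ (MM j h)² ≤ C ∫ h²`.
WLOG (a.e., countably many `v`, all `U j v` measure preserving) the `f j` are measurable and `‖f j x‖ ≤ B` everywhere for `j ≠ 0` (replace by
measurable representatives). For `l : ℕ` let `g0 = g0_l` be the truncation of `f 0` at a height such that `‖f 0 - g0‖_2 ≤ 2^{-l}` (bounded,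
measurable; `B'_l ≥ 1` a bound for it), and `g = g_l` from `happ` with `ε_l = 2^{-l} / B'_l`. Pointwise
`|f0 ∏ fj - g0 ∏ gj| ≤ |f0 - g0| B^n + B'_l B₁^n ∑_j |fj - gj|` with `B₁ = max B 1` (telescoping, `Finset.prod` difference bound), so the averages of
the two products differ at `x` by at most `E_l x = B₁^n (MM 0 |f0 - g0| x + ∑_j MM j.succ (B'_l |fj - gj|) x)` for all `M ≥ 1`, and
`∫ E_l² ≤ C' 4^{-l}`; so `∑_l E_l < ∞` a.e., `E_l x → 0` for a.e. `x`. For such `x` (and in the full measure sets where the averages for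
`(g0_l, g_l)` converge, all `l`) the averages for `f` form a Cauchy sequence.
-/

set_option autoImplicit false

open Finset MeasureTheory Filter Topology
open scoped ENNReal NNReal

namespace Pool.Agent.Lib.Npc

variable {X : Type} {mX : MeasurableSpace X} {μ : Measure X} [IsProbabilityMeasure μ]

private theorem prod_sub {ι : Type} [DecidableEq ι] (s : Finset ι) {B : ℝ} (hB : 1 ≤ B)
    (a b : ι → ℂ) (ha : ∀ i, ‖a i‖ ≤ B) (hb : ∀ i, ‖b i‖ ≤ B) :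
    ‖∏ i ∈ s, a i - ∏ i ∈ s, b i‖ ≤ B ^ s.card * ∑ i ∈ s, ‖a i - b i‖ := by
  have hB0 : 0 ≤ B := zero_le_one.trans hB
  have hpa : ∀ t : Finset ι, ‖∏ i ∈ t, a i‖ ≤ B ^ t.card := by
    intro t
    rw [norm_prod]
    exact (Finset.prod_le_prod (fun i _ => norm_nonneg _) fun i _ => ha i).trans
      (by rw [Finset.prod_const])
  induction s using Finset.induction_on with
  | empty => simp
  | insert i s hi ih =>
    rw [Finset.prod_insert hi, Finset.prod_insert hi, Finset.sum_insert hi,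
      Finset.card_insert_of_notMem hi]
    have e : a i * ∏ j ∈ s, a j - b i * ∏ j ∈ s, b j =
        (a i - b i) * ∏ j ∈ s, a j + b i * (∏ j ∈ s, a j - ∏ j ∈ s, b j) := by ring
    rw [e]
    have hpow : B ^ s.card ≤ B ^ (s.card + 1) := pow_le_pow_right₀ hB (Nat.le_succ _)
    calc ‖(a i - b i) * ∏ j ∈ s, a j + b i * (∏ j ∈ s, a j - ∏ j ∈ s, b j)‖
        ≤ ‖a i - b i‖ * ‖∏ j ∈ s, a j‖ + ‖b i‖ * ‖∏ j ∈ s, a j - ∏ j ∈ s, b j‖ := by
          refine (norm_add_le _ _).trans ?_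
          rw [norm_mul, norm_mul]
      _ ≤ ‖a i - b i‖ * B ^ (s.card + 1) + B * (B ^ s.card * ∑ j ∈ s, ‖a j - b j‖) := by
          gcongr
          · exact (hpa s).trans hpow
          · exact hb i
      _ = _ := by ring

private theorem pt {n : ℕ} {B B' : ℝ} (hB : 1 ≤ B) (hB' : 0 ≤ B') (f0 g0 : ℂ) (f g : Fin n → ℂ)
    (hf : ∀ j, ‖f j‖ ≤ B) (hg : ∀ j, ‖g j‖ ≤ B) (hg0 : ‖g0‖ ≤ B') :
    ‖f0 * ∏ j, f j - g0 * ∏ j, g j‖ₑ ≤
      ENNReal.ofReal B ^ n * (‖f0 - g0‖ₑ + ∑ j, ENNReal.ofReal B' * ‖f j - g j‖ₑ) := by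
  have hB0 : 0 ≤ B := zero_le_one.trans hB
  have h1 : ‖f0 * ∏ j, f j - g0 * ∏ j, g j‖ ≤
      B ^ n * (‖f0 - g0‖ + ∑ j, B' * ‖f j - g j‖) := by
    have e : f0 * ∏ j, f j - g0 * ∏ j, g j =
        (f0 - g0) * ∏ j, f j + g0 * (∏ j, f j - ∏ j, g j) := by ring
    rw [e]
    have h2 := prod_sub univ hB f g hf hg
    rw [Finset.card_univ, Fintype.card_fin] at h2
    have h3 : ‖∏ j, f j‖ ≤ B ^ n := by
      rw [norm_prod]
      refine (Finset.prod_le_prod (fun i _ => norm_nonneg _) fun i _ => hf i).trans ?_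
      rw [Finset.prod_const, Finset.card_univ, Fintype.card_fin]
    calc ‖(f0 - g0) * ∏ j, f j + g0 * (∏ j, f j - ∏ j, g j)‖
        ≤ ‖f0 - g0‖ * ‖∏ j, f j‖ + ‖g0‖ * ‖∏ j, f j - ∏ j, g j‖ := by
          refine (norm_add_le _ _).trans ?_
          rw [norm_mul, norm_mul]
      _ ≤ ‖f0 - g0‖ * B ^ n + B' * (B ^ n * ∑ j, ‖f j - g j‖) := by gcongr
      _ = _ := by
          rw [← Finset.mul_sum]
          ring
  have h4 : ‖f0 * ∏ j, f j - g0 * ∏ j, g j‖ₑ =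
      ENNReal.ofReal ‖f0 * ∏ j, f j - g0 * ∏ j, g j‖ := (ofReal_norm _).symm
  rw [h4]
  refine (ENNReal.ofReal_le_ofReal h1).trans (le_of_eq ?_)
  rw [ENNReal.ofReal_mul (by positivity), ENNReal.ofReal_pow hB0,
    ENNReal.ofReal_add (norm_nonneg _) (Finset.sum_nonneg fun j _ => by positivity),
    ofReal_norm, ENNReal.ofReal_sum_of_nonneg fun j _ => by positivity]
  congr 2
  exact Finset.sum_congr rfl fun j _ => by rw [ENNReal.ofReal_mul hB', ofReal_norm]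

private theorem cav_sub {k : ℕ} (a b : (Fin k → ℕ) → ℂ) (M : ℕ) :
    ‖cav a M - cav b M‖ₑ ≤ ((M : ℝ≥0∞) ^ k)⁻¹ *
      ∑ v ∈ Fintype.piFinset (fun _ : Fin k => range M), ‖a v - b v‖ₑ := by
  have e : cav a M - cav b M = ((M : ℂ) ^ k)⁻¹ *
      ∑ v ∈ Fintype.piFinset (fun _ : Fin k => range M), (a v - b v) := by
    unfold cav
    rw [Finset.sum_sub_distrib]
    ring
  rw [e, enorm_mul]
  refine mul_le_mul' ?_ (enorm_sum_le _ _)
  by_cases h : ((M : ℂ) ^ k) = 0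
  · rw [h, inv_zero, enorm_zero]
    exact bot_le
  · rw [enorm_inv h, enorm_pow]
    have : ‖(M : ℂ)‖ₑ = (M : ℝ≥0∞) := by
      rw [← ofReal_norm, Complex.norm_natCast, ENNReal.ofReal_natCast]
    rw [this]

private theorem conv_of_approx (F : ℕ → ℂ) (G : ℕ → ℕ → ℂ) (E : ℕ → ℝ≥0∞)
    (hE : Tendsto E atTop (𝓝 0)) (h : ∀ l M, ‖F M - G l M‖ₑ ≤ E l)
    (hG : ∀ l, ∃ L, Tendsto (G l) atTop (𝓝 L)) : ∃ L, Tendsto F atTop (𝓝 L) := by
  refine cauchySeq_tendsto_of_complete ?_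
  rw [EMetric.cauchySeq_iff]
  intro ε hε
  have hε3 : 0 < ε / 3 := ENNReal.div_pos hε.ne' (by norm_num)
  obtain ⟨l, hl⟩ := ((ENNReal.tendsto_atTop_zero.1 hE (ε / 3 / 2)
    (ENNReal.half_pos hε3.ne')).imp fun N hN => hN N le_rfl)
  obtain ⟨L, hL⟩ := hG l
  obtain ⟨N, hN⟩ := EMetric.cauchySeq_iff.1 hL.cauchySeq (ε / 3) hε3
  refine ⟨N, fun m hm n hn => ?_⟩
  by_cases htop : ε = ⊤
  · rw [htop]
    exact edist_lt_top _ _
  have hlt : ε / 3 / 2 < ε / 3 :=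
    ENNReal.half_lt_self hε3.ne' (ENNReal.div_ne_top htop (by norm_num))
  have h1 : edist (F m) (G l m) < ε / 3 := by
    rw [edist_eq_enorm_sub]
    exact ((h l m).trans hl).trans_lt hlt
  have h2 : edist (G l n) (F n) < ε / 3 := by
    rw [edist_comm, edist_eq_enorm_sub]
    exact ((h l n).trans hl).trans_lt hlt
  calc edist (F m) (F n) ≤ edist (F m) (G l m) + edist (G l m) (G l n) + edist (G l n) (F n) :=
        edist_triangle4 _ _ _ _
    _ < ε / 3 + ε / 3 + ε / 3 := ENNReal.add_lt_add (ENNReal.add_lt_add h1 (hN m hm n hn)) h2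
    _ = ε := ENNReal.add_thirds ε

omit [IsProbabilityMeasure μ] in
private theorem sq_int_le {F : X → ℂ} {ε : ℝ≥0∞} (h : eLpNorm F 2 μ ≤ ε) :
    ∫⁻ x, ‖F x‖ₑ ^ 2 ∂μ ≤ ε ^ 2 := by
  rw [eLpNorm_eq_lintegral_rpow_enorm_toReal (by norm_num) (by norm_num)] at h
  have h1 := ENNReal.rpow_le_rpow h (zero_le_two (α := ℝ))
  rw [← ENNReal.rpow_mul] at h1
  norm_num at h1
  exact h1

omit [IsProbabilityMeasure μ] in
private theorem choice {k n : ℕ} (U : Fin (n + 1) → (Fin k → ℕ) → X → X)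
    (hU : ∀ j v, MeasurePreserving (U j v) μ μ)
    (f : Fin (n + 1) → X → ℂ) (hf0 : MemLp (f 0) 2 μ) (B : ℝ) (hB : 0 < B)
    (hfm : ∀ j, AEStronglyMeasurable (f j) μ) (hfB : ∀ j, j ≠ 0 → ∀ᵐ x ∂μ, ‖f j x‖ ≤ B)
    (happ : ∀ g0 : X → ℂ, Measurable g0 → (∃ B', ∀ x, ‖g0 x‖ ≤ B') → ∀ ε : ℝ, 0 < ε →
      ∃ g : Fin n → X → ℂ, (∀ j, AEStronglyMeasurable (g j) μ) ∧ (∀ j x, ‖g j x‖ ≤ B) ∧
        (∀ j, eLpNorm (fun x => f j.succ x - g j x) 2 μ ≤ ENNReal.ofReal ε) ∧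
        ∀ᵐ x ∂μ, Cv fun v => g0 (U 0 v x) * ∏ j : Fin n, g j (U j.succ v x)) (δ : ℝ)
    (hδ : 0 < δ) :
    ∃ (a : X → (Fin k → ℕ) → ℂ) (H : Fin (n + 1) → X → ℝ≥0∞), (∀ j, Measurable (H j)) ∧
      (∀ j, ∫⁻ x, (H j x) ^ 2 ∂μ ≤ ENNReal.ofReal δ ^ 2) ∧ (∀ᵐ x ∂μ, Cv (a x)) ∧
      ∀ᵐ x ∂μ, ∀ v, ‖f 0 (U 0 v x) * ∏ j : Fin n, f j.succ (U j.succ v x) - a x v‖ₑ ≤
        ENNReal.ofReal (max B 1) ^ n * ∑ j, H j (U j v x) := by
  obtain ⟨g0, hg0, -⟩ := hf0.exists_simpleFunc_eLpNorm_sub_lt (by norm_num)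
    (ε := ENNReal.ofReal δ) (by simpa using hδ)
  obtain ⟨b, hb⟩ := g0.exists_forall_norm_le
  set B' := max b 1 with hB'
  have hB'1 : 1 ≤ B' := le_max_right _ _
  have hB'0 : 0 < B' := zero_lt_one.trans_le hB'1
  have hbB : ∀ x, ‖g0 x‖ ≤ B' := fun x => (hb x).trans (le_max_left _ _)
  obtain ⟨g, hg1, hg2, hg3, hg4⟩ := happ g0 g0.measurable ⟨B', hbB⟩ (δ / B') (by positivity)
  have hm0 : AEMeasurable (fun x => ‖f 0 x - g0 x‖ₑ) μ :=
    ((hfm 0).sub g0.aestronglyMeasurable).enorm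
  have hm : ∀ j : Fin n, AEMeasurable (fun x => ‖f j.succ x - g j x‖ₑ) μ := fun j =>
    ((hfm j.succ).sub (hg1 j)).enorm
  refine ⟨fun x v => g0 (U 0 v x) * ∏ j : Fin n, g j (U j.succ v x),
    Fin.cases hm0.mk (fun j x => ENNReal.ofReal B' * (hm j).mk _ x), ?_, ?_, hg4, ?_⟩
  · intro j
    refine Fin.cases ?_ (fun j => ?_) j
    · exact hm0.measurable_mk
    · exact (hm j).measurable_mk.const_mul _
  · intro j
    refine Fin.cases ?_ (fun j => ?_) j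
    · have e : ∫⁻ x, (hm0.mk _ x) ^ 2 ∂μ = ∫⁻ x, ‖f 0 x - g0 x‖ₑ ^ 2 ∂μ := by
        refine lintegral_congr_ae ?_
        filter_upwards [hm0.ae_eq_mk] with x hx
        rw [← hx]
      show ∫⁻ x, (hm0.mk _ x) ^ 2 ∂μ ≤ _
      rw [e]
      exact sq_int_le (F := fun x => f 0 x - g0 x) hg0.le
    · have e : ∫⁻ x, (ENNReal.ofReal B' * (hm j).mk _ x) ^ 2 ∂μ =
          ENNReal.ofReal B' ^ 2 * ∫⁻ x, ‖f j.succ x - g j x‖ₑ ^ 2 ∂μ := by
        rw [← lintegral_const_mul' _ _ (by simp)]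
        refine lintegral_congr_ae ?_
        filter_upwards [(hm j).ae_eq_mk] with x hx
        rw [← hx, mul_pow]
      show ∫⁻ x, (ENNReal.ofReal B' * (hm j).mk _ x) ^ 2 ∂μ ≤ _
      rw [e]
      calc ENNReal.ofReal B' ^ 2 * ∫⁻ x, ‖f j.succ x - g j x‖ₑ ^ 2 ∂μ
          ≤ ENNReal.ofReal B' ^ 2 * ENNReal.ofReal (δ / B') ^ 2 := by
            gcongr
            exact sq_int_le (hg3 j)
        _ = ENNReal.ofReal δ ^ 2 := by
            rw [← mul_pow, ← ENNReal.ofReal_mul hB'0.le, mul_div_cancel₀ _ hB'0.ne']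
  · have hall : ∀ (j : Fin (n + 1)) (P : X → Prop), (∀ᵐ x ∂μ, P x) → ∀ᵐ x ∂μ, ∀ v, P (U j v x) := by
      intro j P hP
      rw [ae_all_iff]
      intro v
      exact (hU j v).quasiMeasurePreserving.tendsto_ae hP
    have h1 := hall 0 _ hm0.ae_eq_mk
    have h2 : ∀ᵐ x ∂μ, ∀ j : Fin n, ∀ v,
        ‖f j.succ (U j.succ v x) - g j (U j.succ v x)‖ₑ = (hm j).mk _ (U j.succ v x) := by
      rw [ae_all_iff]
      intro j
      exact hall j.succ _ (hm j).ae_eq_mk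
    have h3 : ∀ᵐ x ∂μ, ∀ j : Fin n, ∀ v, ‖f j.succ (U j.succ v x)‖ ≤ B := by
      rw [ae_all_iff]
      intro j
      exact hall j.succ _ (hfB j.succ (Fin.succ_ne_zero j))
    filter_upwards [h1, h2, h3] with x h1 h2 h3 v
    refine (pt (le_max_right B 1) hB'0.le (f 0 (U 0 v x)) (g0 (U 0 v x))
      (fun j => f j.succ (U j.succ v x)) (fun j => g j (U j.succ v x))
      (fun j => (h3 j v).trans (le_max_left _ _)) (fun j => (hg2 j _).trans (le_max_left _ _))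
      (hbB _)).trans ?_
    rw [Fin.sum_univ_succ]
    refine mul_le_mul' le_rfl (add_le_add (le_of_eq (h1 v)) (Finset.sum_le_sum fun j _ => ?_))
    exact mul_le_mul' le_rfl (le_of_eq (h2 j v))

theorem conv_clos {k n : ℕ} (U : Fin (n + 1) → (Fin k → ℕ) → X → X)
    (hU : ∀ j v, MeasurePreserving (U j v) μ μ)
    (hmax : ∀ j, ∃ C : ℝ≥0, ∀ f : X → ℝ≥0∞, Measurable f →
      ∫⁻ x, (⨆ M : ℕ, ((M : ℝ≥0∞) ^ k)⁻¹ *
        ∑ v ∈ Fintype.piFinset (fun _ : Fin k => range M), f (U j v x)) ^ 2 ∂μ ≤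
        C * ∫⁻ x, (f x) ^ 2 ∂μ)
    (f : Fin (n + 1) → X → ℂ) (hf0 : MemLp (f 0) 2 μ) (B : ℝ) (hB : 0 < B)
    (hfm : ∀ j, AEStronglyMeasurable (f j) μ) (hfB : ∀ j, j ≠ 0 → ∀ᵐ x ∂μ, ‖f j x‖ ≤ B)
    (happ : ∀ g0 : X → ℂ, Measurable g0 → (∃ B', ∀ x, ‖g0 x‖ ≤ B') → ∀ ε : ℝ, 0 < ε →
      ∃ g : Fin n → X → ℂ, (∀ j, AEStronglyMeasurable (g j) μ) ∧ (∀ j x, ‖g j x‖ ≤ B) ∧
        (∀ j, eLpNorm (fun x => f j.succ x - g j x) 2 μ ≤ ENNReal.ofReal ε) ∧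
        ∀ᵐ x ∂μ, Cv fun v => g0 (U 0 v x) * ∏ j : Fin n, g j (U j.succ v x)) :
    ∀ᵐ x ∂μ, Cv fun v => f 0 (U 0 v x) * ∏ j : Fin n, f j.succ (U j.succ v x) := by
  set V : ℕ → Finset (Fin k → ℕ) := fun M => Fintype.piFinset (fun _ : Fin k => range M) with hV
  set K : ℝ≥0∞ := ENNReal.ofReal (max B 1) ^ n with hK
  have hKtop : K ≠ ⊤ := ENNReal.pow_ne_top ENNReal.ofReal_ne_top
  choose a H hHm hHi hcv hle using fun l : ℕ => choice U hU f hf0 B hB hfm hfB happ ((1 / 2) ^ l)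
    (by positivity)
  -- the maximal functions
  set MM : Fin (n + 1) → ℕ → X → ℝ≥0∞ := fun j l x => ⨆ M : ℕ, ((M : ℝ≥0∞) ^ k)⁻¹ *
    ∑ v ∈ V M, H l j (U j v x) with hMM
  have hMMm : ∀ j l, Measurable (MM j l) := by
    intro j l
    refine Measurable.iSup fun M => Measurable.const_mul ?_ _
    exact Finset.measurable_sum _ fun v _ => (hHm l j).comp (hU j v).measurable
  have hlim : ∀ j, ∀ᵐ x ∂μ, Tendsto (fun l => MM j l x) atTop (𝓝 0) := by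
    intro j
    obtain ⟨C, hC⟩ := hmax j
    have h1 : ∫⁻ x, ∑' l, (MM j l x) ^ 2 ∂μ ≤ C * ∑' l, ENNReal.ofReal ((1 / 2) ^ l) ^ 2 := by
      rw [lintegral_tsum fun l => ((hMMm j l).pow_const 2).aemeasurable, ← ENNReal.tsum_mul_left]
      refine ENNReal.tsum_le_tsum fun l => ?_
      exact (hC (H l j) (hHm l j)).trans (mul_le_mul' le_rfl (hHi l j))
    have h2 : ∑' l : ℕ, ENNReal.ofReal ((1 / 2) ^ l) ^ 2 ≠ ⊤ := by
      have e : ∀ l : ℕ, ENNReal.ofReal ((1 / 2) ^ l) ^ 2 = (ENNReal.ofReal (1 / 4)) ^ l := by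
        intro l
        rw [← ENNReal.ofReal_pow (by positivity), ← ENNReal.ofReal_pow (by positivity)]
        congr 1
        rw [← pow_mul, mul_comm, pow_mul]
        norm_num
      simp only [e]
      rw [ENNReal.tsum_geometric]
      refine ENNReal.inv_ne_top.2 ?_
      rw [Ne, tsub_eq_zero_iff_le, not_le]
      rw [← ENNReal.ofReal_one]
      exact (ENNReal.ofReal_lt_ofReal_iff (by norm_num)).2 (by norm_num)
    have h3 : ∫⁻ x, ∑' l, (MM j l x) ^ 2 ∂μ ≠ ⊤ :=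
      ne_top_of_le_ne_top (ENNReal.mul_ne_top ENNReal.coe_ne_top h2) h1
    have h4 := ae_lt_top (Measurable.tsum fun l => (hMMm j l).pow_const 2) h3
    filter_upwards [h4] with x hx
    have h5 := ENNReal.tendsto_atTop_zero_of_tsum_ne_top hx.ne
    have h6 := (ENNReal.continuous_rpow_const (y := 1 / 2)).tendsto 0 |>.comp h5
    rw [ENNReal.zero_rpow_of_pos (by norm_num)] at h6
    refine h6.congr fun l => ?_
    simp only [Function.comp_apply]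
    rw [← ENNReal.rpow_natCast, ← ENNReal.rpow_mul]
    norm_num
  have hlim' : ∀ᵐ x ∂μ, ∀ j, Tendsto (fun l => MM j l x) atTop (𝓝 0) := ae_all_iff.2 hlim
  have hcv' : ∀ᵐ x ∂μ, ∀ l, Cv (a l x) := ae_all_iff.2 hcv
  have hle' := ae_all_iff.2 hle
  filter_upwards [hlim', hcv', hle'] with x h1 h2 h3
  refine conv_of_approx _ (fun l => cav (a l x)) (fun l => K * ∑ j, MM j l x) ?_ ?_ (fun l => h2 l)
  · have h4 : Tendsto (fun l => ∑ j, MM j l x) atTop (𝓝 0) := by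
      have := tendsto_finsetSum (univ : Finset (Fin (n + 1))) fun j _ => h1 j
      simpa using this
    have h5 := ENNReal.Tendsto.const_mul h4 (Or.inr hKtop)
    rwa [mul_zero] at h5
  · intro l M
    refine (cav_sub _ _ M).trans ?_
    calc ((M : ℝ≥0∞) ^ k)⁻¹ * ∑ v ∈ Fintype.piFinset (fun _ : Fin k => range M),
          ‖f 0 (U 0 v x) * ∏ j : Fin n, f j.succ (U j.succ v x) - a l x v‖ₑ
        ≤ ((M : ℝ≥0∞) ^ k)⁻¹ * ∑ v ∈ Fintype.piFinset (fun _ : Fin k => range M),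
          K * ∑ j, H l j (U j v x) := by
          refine mul_le_mul' le_rfl (Finset.sum_le_sum fun v _ => h3 l v)
      _ = K * ∑ j, ((M : ℝ≥0∞) ^ k)⁻¹ * ∑ v ∈ V M, H l j (U j v x) := by
          rw [← Finset.mul_sum, ← Finset.mul_sum, Finset.sum_comm]
          rw [← mul_assoc, ← mul_assoc, mul_comm K]
      _ ≤ K * ∑ j, MM j l x := by
          refine mul_le_mul' le_rfl (Finset.sum_le_sum fun j _ => ?_)
          exact le_iSup (fun M : ℕ => ((M : ℝ≥0∞) ^ k)⁻¹ * ∑ v ∈ V M, H l j (U j v x)) M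

end Pool.Agent.Lib.Npc
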