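import Mathlib

/-!
# Averages over cubes, the compact part of an action: definitions
-/

set_option autoImplicit false

open Finset MeasureTheory Filter Topology
open scoped ENNReal NNReal

namespace Pool.Agent.Lib.Npc

/-- averages over the cube `[0, M)^k` -/
noncomputable def cav {k : ℕ} (a : (Fin k → ℕ) → ℂ) (M : ℕ) : ℂ :=
  ((M : ℂ) ^ k)⁻¹ * ∑ v ∈ Fintype.piFinset (fun _ : Fin k => range M), a v

/-- convergence of the averages over cubes -/
def Cv {k : ℕ} (a : (Fin k → ℕ) → ℂ) : Prop := ∃ L : ℂ, Tendsto (cav a) atTop (𝓝 L)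

/-- `f` is an `L²` limit of functions in finite dimensional invariant subspaces of `L²(μ)`: for
every `ε` there are an orthonormal family `φ` whose span is invariant under all the `T i`, and a
linear combination of the `φ a` within `ε` of `f` in `L²(μ)` -/
def CompactPart {X : Type} [MeasurableSpace X] (μ : Measure X) {d : ℕ} (T : Fin d → X → X)
    (f : X → ℂ) : Prop :=
  ∀ ε : ℝ, 0 < ε → ∃ (N : ℕ) (φ : Fin N → X → ℂ) (A : Fin d → Matrix (Fin N) (Fin N) ℂ)
    (c : Fin N → ℂ), (∀ a, MemLp (φ a) 2 μ) ∧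
    (∀ a b, ∫ x, φ a x * star (φ b x) ∂μ = if a = b then 1 else 0) ∧
    (∀ i, ∀ᵐ x ∂μ, ∀ a, φ a (T i x) = ∑ b, A i a b * φ b x) ∧
    eLpNorm (fun x => f x - ∑ a, c a * φ a x) 2 μ ≤ ENNReal.ofReal ε

end Pool.Agent.Lib.Npc
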