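import Mathlib

/-!
# The unitary representation on a finite dimensional invariant space

`G` = closure of the `T i`. For `g ∈ G` put `R g a b = ∫ φ a (g x) * star (φ b x) ∂μ`. Claim: for every `g ∈ G`,
(*) a.e. `x`, all `a`: `φ a (g x) = ∑ b, R g a b * φ b x`.
-/

set_option autoImplicit false

open Finset MeasureTheory Filter Topology
open scoped ENNReal NNReal

namespace Pool.Agent.Lib.Npc

variable {X : Type} {mX : MeasurableSpace X} {μ : Measure X} [IsProbabilityMeasure μ]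

private theorem integ {N : ℕ} {φ : Fin N → X → ℂ} (hφ : ∀ a, MemLp (φ a) 2 μ) (a b : Fin N) :
    Integrable (fun x => φ a x * star (φ b x)) μ := by
  exact MemLp.integrable_mul (hφ a) (hφ b).star

private theorem int_comp {g : Equiv.Perm X} (hg : MeasurePreserving g μ μ) {f : X → ℂ}
    (hf : AEStronglyMeasurable f μ) : ∫ x, f (g x) ∂μ = ∫ x, f x ∂μ := by
  have h := integral_map (μ := μ) (φ := g) hg.aemeasurable (f := f) (by rwa [hg.map_eq])
  rw [hg.map_eq] at h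
  exact h.symm

private theorem coef {N : ℕ} {φ : Fin N → X → ℂ} (hφ : ∀ a, MemLp (φ a) 2 μ)
    (ho : ∀ a b, ∫ x, φ a x * star (φ b x) ∂μ = if a = b then 1 else 0)
    {g : Equiv.Perm X} {B : Matrix (Fin N) (Fin N) ℂ}
    (hB : ∀ᵐ x ∂μ, ∀ a, φ a (g x) = ∑ b, B a b * φ b x) (a b : Fin N) :
    B a b = ∫ x, φ a (g x) * star (φ b x) ∂μ := by
  have h1 : ∫ x, φ a (g x) * star (φ b x) ∂μ =
      ∫ x, ∑ c, B a c * (φ c x * star (φ b x)) ∂μ := by
    refine integral_congr_ae ?_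
    filter_upwards [hB] with x hx
    rw [hx a, sum_mul]
    refine sum_congr rfl fun c _ => ?_
    ring
  rw [h1, integral_finsetSum _ fun c _ => (integ hφ c b).const_mul _]
  simp only [integral_const_mul, ho]
  simp

private theorem unit {N : ℕ} {φ : Fin N → X → ℂ} (hφ : ∀ a, MemLp (φ a) 2 μ)
    (ho : ∀ a b, ∫ x, φ a x * star (φ b x) ∂μ = if a = b then 1 else 0)
    {g : Equiv.Perm X} (hg : MeasurePreserving g μ μ) {B : Matrix (Fin N) (Fin N) ℂ}
    (hB : ∀ᵐ x ∂μ, ∀ a, φ a (g x) = ∑ b, B a b * φ b x) :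
    B * B.conjTranspose = 1 := by
  ext a b
  have h0 : ∫ x, φ a (g x) * star (φ b (g x)) ∂μ = if a = b then 1 else 0 := by
    rw [← ho a b]
    exact int_comp hg (f := fun x => φ a x * star (φ b x)) (integ hφ a b).aestronglyMeasurable
  have h1 : ∫ x, φ a (g x) * star (φ b (g x)) ∂μ =
      ∫ x, ∑ c, ∑ d, (B a c * star (B b d)) * (φ c x * star (φ d x)) ∂μ := by
    refine integral_congr_ae ?_
    filter_upwards [hB] with x hx
    rw [hx a, hx b, star_sum, sum_mul]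
    refine sum_congr rfl fun c _ => ?_
    rw [mul_sum]
    refine sum_congr rfl fun d _ => ?_
    rw [star_mul']
    ring
  rw [integral_finsetSum _ fun c _ => integrable_finsetSum _ fun d _ =>
    (integ hφ c d).const_mul _] at h1
  have h2 : ∀ c, ∫ x, ∑ d, (B a c * star (B b d)) * (φ c x * star (φ d x)) ∂μ =
      B a c * star (B b c) := by
    intro c
    rw [integral_finsetSum _ fun d _ => (integ hφ c d).const_mul _]
    simp only [integral_const_mul, ho]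
    simp
  rw [Matrix.mul_apply, Matrix.one_apply, ← h0, h1]
  refine sum_congr rfl fun c _ => ?_
  rw [h2 c, Matrix.conjTranspose_apply]

/-- The property propagated through the closure. -/
private def Pr (μ : Measure X) {N : ℕ} (φ : Fin N → X → ℂ) (g : Equiv.Perm X) : Prop :=
  MeasurePreserving g μ μ ∧ MeasurePreserving g.symm μ μ ∧
    ∃ B : Matrix (Fin N) (Fin N) ℂ, ∀ᵐ x ∂μ, ∀ a, φ a (g x) = ∑ b, B a b * φ b x

private theorem ae_mul {N : ℕ} {φ : Fin N → X → ℂ} {g h : Equiv.Perm X}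
    (hh : MeasurePreserving h μ μ) {B C : Matrix (Fin N) (Fin N) ℂ}
    (hB : ∀ᵐ x ∂μ, ∀ a, φ a (g x) = ∑ b, B a b * φ b x)
    (hC : ∀ᵐ x ∂μ, ∀ a, φ a (h x) = ∑ b, C a b * φ b x) :
    ∀ᵐ x ∂μ, ∀ a, φ a ((g * h) x) = ∑ b, (B * C) a b * φ b x := by
  have hB' : ∀ᵐ x ∂μ, ∀ a, φ a (g (h x)) = ∑ b, B a b * φ b (h x) :=
    hh.quasiMeasurePreserving.ae hB
  filter_upwards [hB', hC] with x h1 h2 a
  rw [Equiv.Perm.mul_apply, h1 a]
  simp only [h2, Matrix.mul_apply, sum_mul, mul_sum]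
  rw [sum_comm]
  refine sum_congr rfl fun c _ => sum_congr rfl fun b _ => ?_
  ring

private theorem ae_inv {N : ℕ} {φ : Fin N → X → ℂ} (hφ : ∀ a, MemLp (φ a) 2 μ)
    (ho : ∀ a b, ∫ x, φ a x * star (φ b x) ∂μ = if a = b then 1 else 0) {g : Equiv.Perm X}
    (hg : MeasurePreserving g μ μ) (hg' : MeasurePreserving g.symm μ μ)
    {B : Matrix (Fin N) (Fin N) ℂ}
    (hB : ∀ᵐ x ∂μ, ∀ a, φ a (g x) = ∑ b, B a b * φ b x) :
    ∀ᵐ x ∂μ, ∀ a, φ a (g⁻¹ x) = ∑ b, B.conjTranspose a b * φ b x := by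
  have hu : B.conjTranspose * B = 1 := mul_eq_one_comm.1 (unit hφ ho hg hB)
  have hB' : ∀ᵐ x ∂μ, ∀ a, φ a (g (g.symm x)) = ∑ b, B a b * φ b (g.symm x) :=
    hg'.quasiMeasurePreserving.ae hB
  filter_upwards [hB'] with x h1 a
  have h2 : ∀ a, φ a x = ∑ b, B a b * φ b (g.symm x) := by
    intro a
    rw [← h1 a, Equiv.apply_symm_apply]
  simp only [h2, mul_sum]
  rw [sum_comm]
  have h3 : ∀ c, ∑ b, B.conjTranspose a b * (B b c * φ c (g.symm x)) =
      (if a = c then 1 else 0) * φ c (g.symm x) := by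
    intro c
    have h4 := congrFun (congrFun hu a) c
    rw [Matrix.mul_apply, Matrix.one_apply] at h4
    rw [← h4, sum_mul]
    refine sum_congr rfl fun b _ => ?_
    ring
  simp only [h3]
  simp only [ite_mul, one_mul, zero_mul, sum_ite_eq, mem_univ, if_true]
  rfl

theorem rep {d : ℕ} (T : Fin d → Equiv.Perm X)
    (hT : ∀ i, Measurable (T i) ∧ Measurable (T i).symm ∧ MeasurePreserving (T i) μ μ) {N : ℕ}
    (φ : Fin N → X → ℂ) (hφ : ∀ a, MemLp (φ a) 2 μ)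
    (ho : ∀ a b, ∫ x, φ a x * star (φ b x) ∂μ = if a = b then 1 else 0)
    (A : Fin d → Matrix (Fin N) (Fin N) ℂ)
    (hA : ∀ i, ∀ᵐ x ∂μ, ∀ a, φ a (T i x) = ∑ b, A i a b * φ b x) :
    ∃ ρ : Subgroup.closure (Set.range T) →* Matrix.unitaryGroup (Fin N) ℂ,
      ∀ g : Subgroup.closure (Set.range T), ∀ᵐ x ∂μ, ∀ a,
        φ a ((g : Equiv.Perm X) x) = ∑ b, (ρ g : Matrix (Fin N) (Fin N) ℂ) a b * φ b x := by
  have hP : ∀ g ∈ Subgroup.closure (Set.range T), Pr μ φ g := by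
    intro g hg
    induction hg using Subgroup.closure_induction with
    | mem g hg =>
      obtain ⟨i, rfl⟩ := hg
      refine ⟨(hT i).2.2, ?_, A i, hA i⟩
      let e : X ≃ᵐ X := ⟨T i, (hT i).1, (hT i).2.1⟩
      have he : MeasurePreserving e μ μ := (hT i).2.2
      exact he.symm
    | one =>
      refine ⟨MeasurePreserving.id μ, MeasurePreserving.id μ, 1, ?_⟩
      refine Eventually.of_forall fun x a => ?_
      simp [Matrix.one_apply]
    | mul g h _ _ hg hh =>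
      obtain ⟨g1, g2, B, hB⟩ := hg
      obtain ⟨h1, h2, C, hC⟩ := hh
      exact ⟨g1.comp h1, h2.comp g2, B * C, ae_mul h1 hB hC⟩
    | inv g _ hg =>
      obtain ⟨g1, g2, B, hB⟩ := hg
      exact ⟨g2, g1, B.conjTranspose, ae_inv hφ ho g1 g2 hB⟩
  choose p1 p2 B hB using hP
  have huniq : ∀ (g : Equiv.Perm X) (C D : Matrix (Fin N) (Fin N) ℂ),
      (∀ᵐ x ∂μ, ∀ a, φ a (g x) = ∑ b, C a b * φ b x) →
      (∀ᵐ x ∂μ, ∀ a, φ a (g x) = ∑ b, D a b * φ b x) → C = D := by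
    intro g C D hC hD
    ext a b
    rw [coef hφ ho hC a b, coef hφ ho hD a b]
  refine ⟨MonoidHom.mk' (fun g => ⟨B g.1 g.2, ?_⟩) ?_, fun g => hB g.1 g.2⟩
  · exact Matrix.mem_unitaryGroup_iff.2 (unit hφ ho (p1 g.1 g.2) (hB g.1 g.2))
  · intro g h
    refine Subtype.ext ?_
    exact huniq (g.1 * h.1) _ _ (hB _ (g * h).2)
      (ae_mul (p1 h.1 h.2) (hB g.1 g.2) (hB h.1 h.2))

end Pool.Agent.Lib.Npc
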