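import Mathlib

/-!
# Truncation in the complex plane

`tr B z = z` if `‖z‖ ≤ B`, and `B z / ‖z‖` otherwise. For `‖w‖ ≤ B`: `‖z - tr B z‖ = max (‖z‖ - B) 0 ≤ ‖z‖ - ‖w‖ ≤ ‖w - z‖` if `‖z‖ > B`.
-/

set_option autoImplicit false

namespace Pool.Agent.Lib.Npc

noncomputable def tr (B : ℝ) (z : ℂ) : ℂ := ((B / max B ‖z‖ : ℝ) : ℂ) * z

theorem continuous_tr {B : ℝ} (hB : 0 < B) : Continuous (tr B) := by
  have h1 : Continuous fun z : ℂ => B / max B ‖z‖ := by
    refine Continuous.div continuous_const (continuous_const.max continuous_norm) ?_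
    intro z
    exact (lt_of_lt_of_le hB (le_max_left _ _)).ne'
  exact (Complex.continuous_ofReal.comp h1).mul continuous_id

theorem norm_tr_le {B : ℝ} (hB : 0 < B) (z : ℂ) : ‖tr B z‖ ≤ B := by
  have hm : 0 < max B ‖z‖ := lt_of_lt_of_le hB (le_max_left _ _)
  unfold tr
  rw [norm_mul, Complex.norm_real, Real.norm_eq_abs, abs_of_nonneg (by positivity),
    div_mul_eq_mul_div, div_le_iff₀ hm]
  exact mul_le_mul_of_nonneg_left (le_max_right _ _) hB.le

theorem norm_sub_tr_le {B : ℝ} (hB : 0 < B) {w : ℂ} (hw : ‖w‖ ≤ B) (z : ℂ) :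
    ‖w - tr B z‖ ≤ 2 * ‖w - z‖ := by
  have hm : 0 < max B ‖z‖ := lt_of_lt_of_le hB (le_max_left _ _)
  rcases le_total ‖z‖ B with h | h
  · have h1 : tr B z = z := by
      unfold tr
      rw [max_eq_left h, div_self hB.ne']
      simp
    rw [h1]
    linarith [norm_nonneg (w - z)]
  · have hz : 0 < ‖z‖ := lt_of_lt_of_le hB h
    have h1 : ‖z - tr B z‖ = ‖z‖ - B := by
      unfold tr
      rw [max_eq_right h]
      have h2 : z - ((B / ‖z‖ : ℝ) : ℂ) * z = ((1 - B / ‖z‖ : ℝ) : ℂ) * z := by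
        push_cast
        ring
      have h3 : 0 ≤ 1 - B / ‖z‖ := by
        rw [sub_nonneg, div_le_one hz]
        exact h
      rw [h2, norm_mul, Complex.norm_real, Real.norm_eq_abs, abs_of_nonneg h3]
      field_simp
    have h4 : ‖z‖ - ‖w‖ ≤ ‖w - z‖ := by
      rw [norm_sub_rev]
      exact norm_sub_norm_le z w
    calc ‖w - tr B z‖ = ‖(w - z) + (z - tr B z)‖ := by congr 1; ring
      _ ≤ ‖w - z‖ + ‖z - tr B z‖ := norm_add_le _ _
      _ ≤ 2 * ‖w - z‖ := by
        rw [h1]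
        linarith

end Pool.Agent.Lib.Npc
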