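import Pool.Agent.Lib.Npc.Str
import Pool.Agent.Lib.Npc.Rep
import Pool.Agent.Lib.Npc.Trunc
import Pool.Agent.Lib.Npc.Clos
import Pool.Agent.Lib.Npz.SepN

/-!
# Averages of one arbitrary function and functions in the compact part
-/

set_option autoImplicit false

open Finset MeasureTheory Filter Topology
open scoped ENNReal NNReal
open Pool.Agent.Lib.Pf720nn (PolG pS)
open Pool.Agent.Lib.Pf720ae (pw)

namespace Pool.Agent.Lib.Npc

variable {X : Type} {mX : MeasurableSpace X} {μ : Measure X} [IsProbabilityMeasure μ]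

theorem conv_compact {d k n : ℕ} (T : Fin d → Equiv.Perm X)
    (hT : ∀ i, Measurable (T i) ∧ Measurable (T i).symm ∧ MeasurePreserving (T i) μ μ)
    (hG : Group.IsNilpotent (Subgroup.closure (Set.range T)))
    (P : Fin (n + 1) → Fin d → MvPolynomial (Fin k) ℤ) (f : Fin (n + 1) → X → ℂ)
    (hf0 : MemLp (f 0) 2 μ)
    (hf : ∀ j, j ≠ 0 → MemLp (f j) ∞ μ ∧ CompactPart μ (fun i => T i) (f j)) :
    ∀ᵐ x ∂μ, Cv fun v => ∏ j, f j (pS T (P j) v x) := by
  classical
  -- a common bound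
  obtain ⟨B, hB, hfB⟩ : ∃ B : ℝ, 0 < B ∧ ∀ j, j ≠ 0 → ∀ᵐ x ∂μ, ‖f j x‖ ≤ B := by
    have h1 : ∀ j : Fin (n + 1), ∃ b : ℝ, 0 ≤ b ∧ (j ≠ 0 → ∀ᵐ x ∂μ, ‖f j x‖ ≤ b) := by
      intro j
      by_cases hj : j = 0
      · exact ⟨0, le_rfl, fun h => absurd hj h⟩
      · have h2 := (hf j hj).1
        refine ⟨(eLpNorm (f j) ∞ μ).toReal, ENNReal.toReal_nonneg, fun _ => ?_⟩
        have h3 : eLpNorm (f j) ∞ μ ≠ ∞ := h2.2.ne
        rw [eLpNorm_exponent_top] at h3 ⊢
        filter_upwards [ae_le_eLpNormEssSup (f := f j) (μ := μ)] with x hx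
        have := (ENNReal.toReal_le_toReal (by simp) h3).2 hx
        simpa using this
    choose b hb0 hb using h1
    refine ⟨(∑ j, b j) + 1, by have := Finset.sum_nonneg fun j (_ : j ∈ univ) => hb0 j; linarith,
      fun j hj => ?_⟩
    filter_upwards [hb j hj] with x hx
    have := Finset.single_le_sum (f := b) (fun j _ => hb0 j) (Finset.mem_univ j)
    linarith
  have hmp : ∀ g : Subgroup.closure (Set.range T), MeasurePreserving (g : Equiv.Perm X) μ μ :=
    fun g => Pool.Agent.Lib.Pf720np.pact_mp T hT g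
  have hw : ∀ j, PolG (Pool.Agent.Lib.Npz.ww T (P j)) := fun j => Pool.Agent.Lib.Npz.polG_ww T (P j)
  have key := conv_clos (μ := μ) (k := k) (n := n)
    (fun j v x => ((Pool.Agent.Lib.Npz.ww T (P j) v : Subgroup.closure (Set.range T)) :
      Equiv.Perm X) x) (fun j v => hmp _)
    (fun j => (Pool.Agent.Lib.Npz.words T hT hG (hw j)).2) f hf0 B hB
    (fun j => by
      by_cases hj : j = 0
      · rw [hj]; exact hf0.1
      · exact (hf j hj).1.1) hfB ?_
  · filter_upwards [key] with x hx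
    refine (congrArg Cv ?_).mp hx
    funext v
    rw [Fin.prod_univ_succ]
    simp only [Pool.Agent.Lib.Npz.coe_ww]
  · rintro g0 hg0 ⟨B', hB'⟩ ε hε
    have hg0' : MemLp g0 2 μ := MemLp.of_bound hg0.aestronglyMeasurable B'
      (Eventually.of_forall hB')
    have h1 : ∀ j : Fin n, _ := fun j => (hf j.succ (Fin.succ_ne_zero j)).2 (ε / 2) (by positivity)
    choose N φ A c hφ ho hA hc using h1
    have h2 : ∀ j : Fin n, _ := fun j => rep (μ := μ) T hT (φ j) (hφ j) (ho j) (A j) (hA j)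
    choose ρ hρ using h2
    refine ⟨fun j x => tr B (∑ a, c j a * φ j a x), fun j => ?_, fun j x => norm_tr_le hB _,
      fun j => ?_, ?_⟩
    · refine (continuous_tr hB).comp_aestronglyMeasurable ?_
      exact Finset.aestronglyMeasurable_fun_sum _ fun a _ => (hφ j a).1.const_mul _
    · have h3 : eLpNorm (fun x => f j.succ x - tr B (∑ a, c j a * φ j a x)) 2 μ ≤
          eLpNorm ((2 : ℝ) • fun x => f j.succ x - ∑ a, c j a * φ j a x) 2 μ := by
        refine eLpNorm_mono_ae ?_
        filter_upwards [hfB j.succ (Fin.succ_ne_zero j)] with x hx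
        refine (norm_sub_tr_le hB hx _).trans (le_of_eq ?_)
        simp [norm_smul]
      refine h3.trans ?_
      rw [eLpNorm_const_smul]
      calc ‖(2 : ℝ)‖ₑ * eLpNorm (fun x => f j.succ x - ∑ a, c j a * φ j a x) 2 μ
          ≤ ‖(2 : ℝ)‖ₑ * ENNReal.ofReal (ε / 2) := mul_le_mul_right (hc j) _
        _ = ENNReal.ofReal ε := by
            rw [← ofReal_norm_eq_enorm, ← ENNReal.ofReal_mul (norm_nonneg _)]
            congr 1
            norm_num
            ring
    · exact conv_str T hT hG (fun j => Pool.Agent.Lib.Npz.ww T (P j)) hw hg0' N φ ρ hρ c (tr B)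
        (continuous_tr hB)

end Pool.Agent.Lib.Npc
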