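import Pool.Agent.Lib.Npc.Defs
import Pool.Agent.Lib.Npz.Asm

/-!
# Weights from a compact group

`K` compact metrisable group, `σ : G →* K`. For a.e. `x` the averages of `f (w(v) x) * u (σ (w v))` converge for ALL continuous
`u : K → ℂ` at once.

Proof. Give `K` its Borel sigma algebra (`borel K`, `BorelSpace`) and its Haar probability measure `ν` (left invariant; e.g.
`Measure.haarMeasure ⊤` or a normalisation of `Measure.haar`, positive on non-empty open sets). `X' = X × K` with `μ.prod ν` and the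
action `W' g (x, κ) = (W g x, σ g * κ)` of `G` on `X'`: a homomorphism `G →* Equiv.Perm (X × K)`, every `W' g` measurable and measure
preserving (`MeasurePreserving.prod`, left invariance of `ν`). By `words'` (file Npz/Asm.lean, first part), for `u ∈ C(K, ℂ)` and
`F (x, κ) = f x * u κ` (in `L²`, as `u` is bounded) the averages of `F (W' (w v) (x, κ)) = f (W (w v) x) * u (σ (w v) * κ)`
converge for a.e. `(x, κ)`, hence (`Measure.ae_ae_of_ae_prod`) for a.e. `x`, for a.e. `κ`. `C(K, ℂ)` is second countable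
(instance `ContinuousMap.instSecondCountableTopology`), so it has a countable dense subset `D`: for a.e. `x` this holds for all
`u ∈ D`; and the averages of `‖f (W (w v) x)‖` converge too (`words'` for `x ↦ (‖f x‖ : ℂ)`), so they are bounded by some `B`
(`cav` of a real non-negative sequence; use the norm). Fix such an `x` and `u ∈ C(K, ℂ)`. `cav (fun v => f (..) * u (σ (w v)))` is a Cauchy
sequence: given `ε > 0` let `u' ∈ D` with `‖u - u'‖ ≤ ε`, and `V` a neighbourhood of `1` with `|u' (κ' * κ) - u' κ'| ≤ ε` for all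
`κ'` and `κ ∈ V` (uniform continuity on the compact group, e.g. by compactness (tube lemma / `generalized_tube_lemma`) or
`CompactSpace.uniformContinuous_of_continuous`); since `ν V > 0` there is `κ ∈ V` such that the averages with `u' (σ (w v) * κ)` converge.
They differ from ours by at most `2 ε B`. Conclude with `cauchySeq_tendsto_of_complete`.
-/

set_option autoImplicit false

open Finset MeasureTheory Filter Topology
open scoped ENNReal NNReal
open Pool.Agent.Lib.Pf720nn (PolG)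

namespace Pool.Agent.Lib.Npc

variable {X : Type} {mX : MeasurableSpace X} {μ : Measure X} [IsProbabilityMeasure μ]

theorem cav_sub_le {k : ℕ} {a b : (Fin k → ℕ) → ℂ} {c : (Fin k → ℕ) → ℝ} {δ : ℝ}
    (h : ∀ v, ‖a v - b v‖ ≤ δ * c v) (hc : ∀ v, 0 ≤ c v) (M : ℕ) :
    ‖cav a M - cav b M‖ ≤ δ * ‖cav (fun v => ((c v : ℝ) : ℂ)) M‖ := by
  have e1 : cav a M - cav b M = ((M : ℂ) ^ k)⁻¹ *
      ∑ v ∈ Fintype.piFinset (fun _ : Fin k => range M), (a v - b v) := by
    unfold cav
    rw [Finset.sum_sub_distrib, mul_sub]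
  have e2 : ‖cav (fun v => ((c v : ℝ) : ℂ)) M‖ = ‖((M : ℂ) ^ k)⁻¹‖ *
      ∑ v ∈ Fintype.piFinset (fun _ : Fin k => range M), c v := by
    unfold cav
    rw [norm_mul, ← Complex.ofReal_sum, Complex.norm_real,
      Real.norm_of_nonneg (Finset.sum_nonneg fun v _ => hc v)]
  rw [e1, e2, norm_mul]
  calc ‖((M : ℂ) ^ k)⁻¹‖ * ‖∑ v ∈ Fintype.piFinset (fun _ : Fin k => range M), (a v - b v)‖
      ≤ ‖((M : ℂ) ^ k)⁻¹‖ * ∑ v ∈ Fintype.piFinset (fun _ : Fin k => range M), δ * c v :=
        mul_le_mul_of_nonneg_left (norm_sum_le_of_le _ fun v _ => h v) (norm_nonneg _)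
    _ = δ * (‖((M : ℂ) ^ k)⁻¹‖ * ∑ v ∈ Fintype.piFinset (fun _ : Fin k => range M), c v) := by
        rw [← Finset.mul_sum]
        ring

theorem cv_of_approx {k : ℕ} {a : (Fin k → ℕ) → ℂ}
    (h : ∀ ε : ℝ, 0 < ε → ∃ b : (Fin k → ℕ) → ℂ, Cv b ∧ ∀ M, ‖cav a M - cav b M‖ ≤ ε) :
    Cv a := by
  refine cauchySeq_tendsto_of_complete ?_
  rw [Metric.cauchySeq_iff]
  intro ε hε
  obtain ⟨b, ⟨L, hL⟩, hb⟩ := h (ε / 4) (by linarith)
  obtain ⟨N, hN⟩ := Metric.cauchySeq_iff.1 hL.cauchySeq (ε / 4) (by linarith)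
  refine ⟨N, fun m hm n hn => ?_⟩
  have h1 := hN m hm n hn
  have h2 := hb m
  have h3 := hb n
  rw [← dist_eq_norm] at h2 h3
  have h4 := dist_triangle4 (cav a m) (cav b m) (cav b n) (cav a n)
  rw [dist_comm (cav b n) (cav a n)] at h4
  linarith

theorem unif_mul {K : Type} [Group K] [TopologicalSpace K] [IsTopologicalGroup K]
    [CompactSpace K] (u : C(K, ℂ)) {ε : ℝ} (hε : 0 < ε) :
    ∀ᶠ κ in 𝓝 (1 : K), ∀ κ' ∈ (Set.univ : Set K), ‖u κ' - u (κ' * κ)‖ < ε := by
  refine IsCompact.eventually_forall_of_forall_eventually isCompact_univ fun κ' _ => ?_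
  have hc : Continuous fun z : K × K => ‖u z.2 - u (z.2 * z.1)‖ := by fun_prop
  refine hc.continuousAt.eventually_lt continuousAt_const ?_
  simpa using hε

theorem slice {G : Type} [Group G] (hFG : Group.FG G) (hN : Group.IsNilpotent G)
    (W : G →* Equiv.Perm X) (hW : ∀ g, Measurable (W g) ∧ MeasurePreserving (W g) μ μ)
    {K : Type} [Group K] [TopologicalSpace K] [IsTopologicalGroup K] [CompactSpace K] [T2Space K]
    [SecondCountableTopology K] (σ : G →* K) {k : ℕ} {w : (Fin k → ℕ) → G} (hw : PolG w)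
    {f : X → ℂ} (hf : MemLp f 2 μ) :
    ∀ᵐ x ∂μ, ∀ u : C(K, ℂ), Cv fun v => f (W (w v) x) * u (σ (w v)) := by
  classical
  let _ : MeasurableSpace K := borel K
  have _ : BorelSpace K := ⟨rfl⟩
  let ν : Measure K := Measure.haarMeasure ⊤
  have hν : IsProbabilityMeasure ν := ⟨by
    have h := Measure.haarMeasure_self (K₀ := (⊤ : TopologicalSpace.PositiveCompacts K))
    simpa using h⟩
  let W' : G →* Equiv.Perm (X × K) :=
    { toFun := fun g => Equiv.prodCongr (W g) (Equiv.mulLeft (σ g))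
      map_one' := by
        ext p <;> simp
      map_mul' := fun g h => by
        ext p <;> simp [mul_assoc] }
  have hW' : ∀ g, Measurable (W' g) ∧ MeasurePreserving (W' g) (μ.prod ν) (μ.prod ν) := by
    intro g
    have h := (hW g).2.prod (measurePreserving_mul_left ν (σ g))
    exact ⟨h.measurable, h⟩
  have key : ∀ u : C(K, ℂ), ∀ᵐ x ∂μ, ∀ᵐ κ ∂ν, Cv fun v => f (W (w v) x) * u (σ (w v) * κ) := by
    intro u
    have h1 : MemLp (fun p : X × K => f p.1) 2 (μ.prod ν) :=
      hf.comp_measurePreserving measurePreserving_fst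
    have h2 : MemLp (fun p : X × K => u p.2) ∞ (μ.prod ν) := by
      refine memLp_top_of_bound
        (u.continuous.measurable.comp measurable_snd).aestronglyMeasurable ‖u‖ ?_
      exact ae_of_all _ fun p => u.norm_coe_le_norm p.2
    have hF : MemLp (fun p : X × K => f p.1 * u p.2) 2 (μ.prod ν) := by
      exact h2.mul h1
    have h := (Pool.Agent.Lib.Npz.words' (μ := μ.prod ν) hFG hN W' hW' hw).1 _ hF
    exact Measure.ae_ae_of_ae_prod h
  have hB : ∀ᵐ x ∂μ, Cv fun v => ((‖f (W (w v) x)‖ : ℝ) : ℂ) := by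
    have hF : MemLp (fun x => ((‖f x‖ : ℝ) : ℂ)) 2 μ := hf.norm.ofReal
    have h := (Pool.Agent.Lib.Npz.words' (μ := μ) hFG hN W hW hw).1
      (fun x => ((‖f x‖ : ℝ) : ℂ)) hF
    filter_upwards [h] with x hx
    exact hx
  obtain ⟨D, hDc, hDd⟩ := TopologicalSpace.exists_countable_dense C(K, ℂ)
  have key' : ∀ᵐ x ∂μ, ∀ u ∈ D, ∀ᵐ κ ∂ν, Cv fun v => f (W (w v) x) * u (σ (w v) * κ) :=
    (ae_ball_iff hDc).2 fun u _ => key u
  filter_upwards [key', hB] with x hx hbx
  intro u
  obtain ⟨L, hL⟩ := hbx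
  obtain ⟨B, hB⟩ := hL.norm.bddAbove_range
  have hB' : ∀ M, ‖cav (fun v => ((‖f (W (w v) x)‖ : ℝ) : ℂ)) M‖ ≤ B := fun M =>
    hB ⟨M, rfl⟩
  have hB0 : 0 ≤ B := (norm_nonneg _).trans (hB' 0)
  refine cv_of_approx fun ε hε => ?_
  set δ : ℝ := ε / (2 * (B + 1)) with hδ
  have hδ0 : 0 < δ := by positivity
  obtain ⟨u', hu'D, hu'⟩ := hDd.exists_dist_lt u hδ0
  have hev := unif_mul u' hδ0
  have hden := Measure.dense_of_ae (hx u' hu'D)
  obtain ⟨κ, hκ1, hκ2⟩ := hden.inter_nhds_nonempty hev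
  refine ⟨_, hκ1, fun M => ?_⟩
  have hle : ∀ v, ‖f (W (w v) x) * u (σ (w v)) - f (W (w v) x) * u' (σ (w v) * κ)‖ ≤
      (2 * δ) * ‖f (W (w v) x)‖ := by
    intro v
    rw [← mul_sub, norm_mul, mul_comm]
    refine mul_le_mul_of_nonneg_right ?_ (norm_nonneg _)
    have a1 : ‖u (σ (w v)) - u' (σ (w v))‖ ≤ δ := by
      rw [← dist_eq_norm]
      exact (ContinuousMap.dist_apply_le_dist _).trans hu'.le
    have a2 := hκ2 (σ (w v)) (Set.mem_univ _)
    calc ‖u (σ (w v)) - u' (σ (w v) * κ)‖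
        = ‖(u (σ (w v)) - u' (σ (w v))) + (u' (σ (w v)) - u' (σ (w v) * κ))‖ := by
          congr 1
          ring
      _ ≤ ‖u (σ (w v)) - u' (σ (w v))‖ + ‖u' (σ (w v)) - u' (σ (w v) * κ)‖ := norm_add_le _ _
      _ ≤ 2 * δ := by linarith
  refine (cav_sub_le hle (fun v => norm_nonneg _) M).trans ?_
  calc 2 * δ * ‖cav (fun v => ((‖f (W (w v) x)‖ : ℝ) : ℂ)) M‖ ≤ 2 * δ * (B + 1) := by
        refine mul_le_mul_of_nonneg_left ((hB' M).trans (by linarith)) (by positivity)
    _ = ε := by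
        rw [hδ]
        field_simp

end Pool.Agent.Lib.Npc
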