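import Pool.Agent.Lib.Pf720nn.PDefs
import Pool.Agent.Lib.Npz.Asm

/-!
# Tuples of polynomial maps; topology of the unitary groups

`polG_tup`: `(fun j => w j m) = ∏ over j (in a list) of Pi.mulSingle j (w j m)`; every factor is the image of the polynomial map `w j` under the
homomorphism `MonoidHom.mulSingle _ j`, hence polynomial (`lc G e i` is a term of the lower central series, which homomorphisms map into the
lower central series of the target: `lowerCentralSeries.map` or similar; `dgs` commutes with homomorphisms), and products of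
polynomial maps are polynomial (`Npz.polG_mul`, `Npz.polG_const`); e.g. induction over a finset of indices, or
`Fin.consInduction`. Alternatively directly: `lowerCentralSeries (Fin n → G) i` is contained in / equal to `Subgroup.pi univ`
of the `lowerCentralSeries G i`; Mathlib has `lowerCentralSeries_pi_of_finite`.
`compact_unitary`: bounded entries, closed in the finite dimensional space of matrices. Second countable: subspace topology.
-/

set_option autoImplicit false

open Finset Filter Topology
open Pool.Agent.Lib.Pf720nn (PolG)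

namespace Pool.Agent.Lib.Npc

namespace TupAux

private theorem dgs_pi {G κ : Type} [Group G] {n : ℕ} (hs : List (κ → ℕ))
    (w : Fin n → (κ → ℕ) → G) (m : κ → ℕ) :
    Pool.Agent.Lib.Pf720nn.dgs hs (fun (m : κ → ℕ) (j : Fin n) => w j m) m =
      fun j => Pool.Agent.Lib.Pf720nn.dgs hs (w j) m := by
  induction hs generalizing w with
  | nil => rfl
  | cons h hs ih =>
    rw [Pool.Agent.Lib.Pf720nn.dgs_cons]
    have e : Pool.Agent.Lib.Pf720nn.dg h (fun (m : κ → ℕ) (j : Fin n) => w j m) =
        fun (m : κ → ℕ) (j : Fin n) => Pool.Agent.Lib.Pf720nn.dg h (w j) m := rfl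
    rw [e, ih]
    rfl

end TupAux

theorem polG_tup {G κ : Type} [Group G] {n : ℕ} {w : Fin n → (κ → ℕ) → G}
    (h : ∀ j, PolG (w j)) : PolG fun (m : κ → ℕ) (j : Fin n) => w j m := by
  choose e he hw using h
  refine ⟨(∑ j, e j) + 1, Nat.succ_pos _, fun hs m => ?_⟩
  rw [TupAux.dgs_pi]
  unfold Pool.Agent.Lib.Pf720nn.lc
  rw [Subgroup.top_lowerCentralSeries_pi_of_finite, Subgroup.mem_pi]
  intro j _
  have hle : e j ≤ (∑ j, e j) + 1 :=
    (Finset.single_le_sum (f := e) (fun i _ => Nat.zero_le _) (Finset.mem_univ j)).trans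
      (Nat.le_succ _)
  exact Pool.Agent.Lib.Pf720nn.lc_le (G := G) (0 + hs.length) (he j) hle (hw j hs m)

theorem compact_unitary (N : ℕ) : CompactSpace (Matrix.unitaryGroup (Fin N) ℂ) := by
  have hK : IsCompact (Set.pi Set.univ (fun _ : Fin N => Set.pi Set.univ
      (fun _ : Fin N => Metric.closedBall (0 : ℂ) 1)) : Set (Fin N → Fin N → ℂ)) :=
    isCompact_univ_pi fun _ => isCompact_univ_pi fun _ => isCompact_closedBall _ _
  have hcl : IsClosed ((Matrix.unitaryGroup (Fin N) ℂ : Submonoid (Matrix (Fin N) (Fin N) ℂ)) :
      Set (Matrix (Fin N) (Fin N) ℂ)) := by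
    have e : ((Matrix.unitaryGroup (Fin N) ℂ : Submonoid (Matrix (Fin N) (Fin N) ℂ)) :
        Set (Matrix (Fin N) (Fin N) ℂ)) = {U | U * star U = 1} := by
      ext U
      exact Matrix.mem_unitaryGroup_iff
    rw [e]
    exact isClosed_eq (continuous_id.matrix_mul continuous_id.matrix_conjTranspose)
      continuous_const
  have hc : IsCompact ((Matrix.unitaryGroup (Fin N) ℂ : Submonoid (Matrix (Fin N) (Fin N) ℂ)) :
      Set (Matrix (Fin N) (Fin N) ℂ)) := by
    refine IsCompact.of_isClosed_subset (X := Matrix (Fin N) (Fin N) ℂ) hK hcl ?_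
    intro U hU i _ j _
    rw [mem_closedBall_zero_iff]
    exact entry_norm_bound_of_unitary hU i j
  exact isCompact_iff_compactSpace.mp hc

theorem second_countable_unitary (N : ℕ) :
    SecondCountableTopology (Matrix.unitaryGroup (Fin N) ℂ) := by
  have h : SecondCountableTopology (Matrix (Fin N) (Fin N) ℂ) :=
    inferInstanceAs (SecondCountableTopology (Fin N → Fin N → ℂ))
  exact TopologicalSpace.Subtype.secondCountableTopology _

end Pool.Agent.Lib.Npc
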