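import Pool.Agent.Lib.Npc.Slice
import Pool.Agent.Lib.Npc.Tup

/-!
# Convergence with structured functions

Apply `slice` to the group `G' = Fin (n+1) → H`, `H` = closure of the `T i` (nilpotent: `Group.isNilpotent_pi`; finitely generated:
`Npz` shows `Group.FG H` inside `words`, then the instance for finite products), `W' g = (g 0 : Equiv.Perm X)`
(`(Subgroup.subtype _).comp (Pi.evalMonoidHom _ 0)`; measure preserving: `Pf720np.pact_mp T hT g`), the compact group
`K = (j : Fin n) → Matrix.unitaryGroup (Fin (N j)) ℂ`, `σ g j = ρ j (g j.succ)`, and `w' v j = w j v` (`polG_tup`). For a.e. `x` one has, for all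
`j` and all `g ∈ H` (`H` is countable: it is finitely generated; `Countable`), `φ j a (g x) = ∑ b, ρ j g a b * φ j b x`. For such an `x` use
`slice` with `u κ = ∏ j, τ (∑ a, c j a * ∑ b, (κ j : Matrix ..) a b * φ j b x)`, a continuous function of `κ`.
-/

set_option autoImplicit false

open Finset MeasureTheory Filter Topology
open scoped ENNReal NNReal
open Pool.Agent.Lib.Pf720nn (PolG)

namespace Pool.Agent.Lib.Npc

variable {X : Type} {mX : MeasurableSpace X} {μ : Measure X} [IsProbabilityMeasure μ]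

lemma countable_gen {d : ℕ} (T : Fin d → Equiv.Perm X) :
    Countable (Subgroup.closure (Set.range T)) := by
  have h1 : Countable (FreeGroup (Fin d)) := by
    unfold FreeGroup
    infer_instance
  have h2 : Set.Countable ((FreeGroup.lift T).range : Set (Equiv.Perm X)) := by
    rw [MonoidHom.coe_range]
    exact Set.countable_range _
  rw [FreeGroup.range_lift_eq_closure] at h2
  exact h2.to_subtype

theorem conv_str {d k n : ℕ} (T : Fin d → Equiv.Perm X)
    (hT : ∀ i, Measurable (T i) ∧ Measurable (T i).symm ∧ MeasurePreserving (T i) μ μ)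
    (hG : Group.IsNilpotent (Subgroup.closure (Set.range T)))
    (w : Fin (n + 1) → (Fin k → ℕ) → Subgroup.closure (Set.range T)) (hw : ∀ j, PolG (w j))
    {f : X → ℂ} (hf : MemLp f 2 μ) (N : Fin n → ℕ) (φ : ∀ j, Fin (N j) → X → ℂ)
    (ρ : ∀ j, Subgroup.closure (Set.range T) →* Matrix.unitaryGroup (Fin (N j)) ℂ)
    (hρ : ∀ j, ∀ g : Subgroup.closure (Set.range T), ∀ᵐ x ∂μ, ∀ a,
      φ j a ((g : Equiv.Perm X) x) =
        ∑ b, (ρ j g : Matrix (Fin (N j)) (Fin (N j)) ℂ) a b * φ j b x)
    (c : ∀ j, Fin (N j) → ℂ) (τ : ℂ → ℂ) (hτ : Continuous τ) :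
    ∀ᵐ x ∂μ, Cv fun v => f ((w 0 v : Equiv.Perm X) x) *
      ∏ j : Fin n, τ (∑ a, c j a * φ j a ((w j.succ v : Equiv.Perm X) x)) := by
  have := countable_gen T
  have hFGH : Group.FG (Subgroup.closure (Set.range T)) := inferInstance
  have : ∀ M : ℕ, CompactSpace (Matrix.unitaryGroup (Fin M) ℂ) := compact_unitary
  have : ∀ M : ℕ, SecondCountableTopology (Matrix.unitaryGroup (Fin M) ℂ) :=
    second_countable_unitary
  have hFG : Group.FG (Fin (n + 1) → Subgroup.closure (Set.range T)) := inferInstance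
  have hN : Group.IsNilpotent (Fin (n + 1) → Subgroup.closure (Set.range T)) := inferInstance
  set W : (Fin (n + 1) → Subgroup.closure (Set.range T)) →* Equiv.Perm X :=
    (Subgroup.subtype _).comp (Pi.evalMonoidHom _ 0) with hWdef
  have hWapp : ∀ g x, W g x = ((g 0 : Subgroup.closure (Set.range T)) : Equiv.Perm X) x :=
    fun g x => rfl
  have hW : ∀ g, Measurable (W g) ∧ MeasurePreserving (W g) μ μ := fun g =>
    ⟨(Pool.Agent.Lib.Pf720np.pact_mp T hT (g 0)).measurable,
      Pool.Agent.Lib.Pf720np.pact_mp T hT (g 0)⟩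
  set σ : (Fin (n + 1) → Subgroup.closure (Set.range T)) →*
      ((j : Fin n) → Matrix.unitaryGroup (Fin (N j)) ℂ) :=
    MonoidHom.pi fun j => (ρ j).comp (Pi.evalMonoidHom _ j.succ) with hσdef
  have hw' : PolG fun (v : Fin k → ℕ) (j : Fin (n + 1)) => w j v := polG_tup hw
  have h1 := slice (μ := μ) hFG hN W hW σ hw' hf
  have h2 : ∀ᵐ x ∂μ, ∀ (j : Fin n) (g : Subgroup.closure (Set.range T)), ∀ a,
      φ j a ((g : Equiv.Perm X) x) =
        ∑ b, (ρ j g : Matrix (Fin (N j)) (Fin (N j)) ℂ) a b * φ j b x := by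
    rw [ae_all_iff]
    intro j
    rw [ae_all_iff]
    exact hρ j
  filter_upwards [h1, h2] with x hx1 hx2
  have hcont : Continuous fun κ : ((j : Fin n) → Matrix.unitaryGroup (Fin (N j)) ℂ) =>
      ∏ j : Fin n, τ (∑ a, c j a * ∑ b, (κ j : Matrix (Fin (N j)) (Fin (N j)) ℂ) a b * φ j b x) := by
    refine continuous_finsetProd _ fun j _ => hτ.comp ?_
    refine continuous_finsetSum _ fun a _ => continuous_const.mul ?_
    refine continuous_finsetSum _ fun b _ => Continuous.mul ?_ continuous_const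
    have h3 : Continuous fun κ : ((j : Fin n) → Matrix.unitaryGroup (Fin (N j)) ℂ) =>
        (κ j : Matrix (Fin (N j)) (Fin (N j)) ℂ) :=
      continuous_subtype_val.comp (continuous_apply j)
    exact h3.matrix_elem a b
  have h4 := hx1 ⟨_, hcont⟩
  obtain ⟨L, hL⟩ := h4
  refine ⟨L, ?_⟩
  convert hL using 2
  funext v
  simp only [hWapp, ContinuousMap.coe_mk]
  congr 1
  refine Finset.prod_congr rfl fun j _ => ?_
  congr 1
  refine Finset.sum_congr rfl fun a _ => ?_
  rw [hx2 j (w j.succ v) a]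
  rfl

end Pool.Agent.Lib.Npc
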